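import Pool.Agent.Q214.CF.FNRa

/-!
# Project CF of helper7, job FNR: the norms to the quotients of the Fermat curve
-/

set_option autoImplicit false

namespace Pool.Agent.Q214.CF

open Polynomial Pool.Agent.Q7.CF

section

variable {p : ℕ} {L : Type} [Field L] {D : L} {ζ : L} {i j : ℕ} {f : RF p D →+* RF p D}

/-! ## the quotient curves -/

theorem zero_le_BQ {r : ℕ} (hr : r ≤ p) {y : RF p D} (hy : y ∈ Sn p D (p - r) 1 0) :
    y ∈ BQ p r D := by
  unfold Sn at hy
  induction hy using Submodule.span_induction with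
  | mem x hx =>
    obtain ⟨a, b, hab, rfl⟩ := hx
    apply mons_mem
    have h1 : (p - r) * a + b ≡ 0 [MOD p] := by
      apply Nat.modEq_zero_iff_dvd.2
      have : 0 + ((p - r) * a + 1 * b) = (p - r) * a + b := by ring
      rwa [this] at hab
    have h2 : r * a + ((p - r) * a + b) ≡ r * a + 0 [MOD p] := Nat.ModEq.add_left _ h1
    have h3 : r * a + ((p - r) * a + b) = p * a + b := by
      rw [← add_assoc, ← add_mul, Nat.add_sub_cancel' hr]
    rw [h3, add_zero] at h2
    exact (((Nat.modEq_zero_iff_dvd.2 (dvd_mul_right p a)).add_right b).symm.trans h2 |>.symm.trans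
      (Nat.ModEq.refl _)).symm.trans (Nat.ModEq.refl _) |> fun h => by
        rw [zero_add] at h
        exact h
  | zero => exact Subalgebra.zero_mem _
  | add x y _ _ hx hy => exact Subalgebra.add_mem _ hx hy
  | smul c x _ hx => exact Subalgebra.smul_mem _ hx c

theorem split_D (y : RF p D) : algebraMap L (RF p D) D * y =
    mo p D p 0 * y + mo p D 0 p * y := by
  rw [← fermat_eq p D]
  unfold mo
  ring

theorem unit_D {K : Ideal (RF p D)} (hD : D ≠ 0) {y : RF p D}
    (h : algebraMap L (RF p D) D * y ∈ K) : y ∈ K := by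
  have h4 := K.mul_mem_left (algebraMap L (RF p D) D⁻¹) h
  rwa [← mul_assoc, ← map_mul, inv_mul_cancel₀ hD, map_one, one_mul] at h4

theorem quot [Fact p.Prime] [CharZero L] (hζ : IsPrimitiveRoot ζ p) (hD : D ≠ 0) {r : ℕ}
    (hr1 : 1 ≤ r) (hr2 : r < p) (hf : IsAct p D ζ (p - r) 1 f) {J : Ideal (RF p D)}
    (hJ : ∀ z ∈ J, f z ∈ J) :
    J = (J.comap ((BQ p r D).val : BQ p r D →+* RF p D)).map
      ((BQ p r D).val : BQ p r D →+* RF p D) := by
  set K := (J.comap ((BQ p r D).val : BQ p r D →+* RF p D)).map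
      ((BQ p r D).val : BQ p r D →+* RF p D) with hK
  refine le_antisymm ?_ Ideal.map_comap_le
  have hpp : p.Prime := Fact.out
  have h0 : ∀ w ∈ J, w ∈ Sn p D (p - r) 1 0 → w ∈ K := by
    intro w hw hw2
    have h1 : (⟨w, zero_le_BQ hr2.le hw2⟩ : BQ p r D) ∈
        J.comap ((BQ p r D).val : BQ p r D →+* RF p D) := hw
    exact Ideal.mem_map_of_mem ((BQ p r D).val : BQ p r D →+* RF p D) h1
  refine stable_le hζ hf hJ fun n hn y hy hyS => unit_D hD ?_
  rw [split_D]
  refine K.add_mem ?_ ?_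
  · -- `X^p y`
    have hcop : Nat.Coprime (p - r) p := by
      apply Nat.Coprime.symm
      rw [hpp.coprime_iff_not_dvd]
      intro h
      have := Nat.le_of_dvd (by omega) h
      omega
    obtain ⟨m, hm⟩ : ∃ m : ℕ, (p - r) * m ≡ n [MOD p] := by
      obtain ⟨m, hm⟩ := Nat.exists_mul_mod_eq_one_of_coprime hcop hpp.one_lt
      refine ⟨m * n, ?_⟩
      have h1 : (p - r) * m ≡ 1 [MOD p] := by
        change (p - r) * m % p = 1 % p
        rw [hm.2, Nat.mod_eq_of_lt hpp.one_lt]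
      have h2 := h1.mul_right n
      rwa [one_mul, mul_assoc] at h2
    have hm' : (p - r) * (m % p) ≡ n [MOD p] := ((Nat.mod_modEq m p).mul_left _).trans hm
    have hlt : m % p < p := Nat.mod_lt _ hpp.pos
    have h1 : mo p D p 0 = mo p D (p - m % p) 0 * mo p D (m % p) 0 := by
      rw [mo_mul, Nat.sub_add_cancel hlt.le]
    rw [h1, mul_assoc]
    refine K.mul_mem_left _ (h0 _ (J.mul_mem_left _ hy) (shift ?_ hyS))
    rw [mul_zero, add_zero, zero_add]
    exact hm'.symm
  · have h1 : mo p D 0 p = mo p D 0 (p - n) * mo p D 0 n := by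
      rw [mo_mul, Nat.sub_add_cancel hn.le]
    rw [h1, mul_assoc]
    refine K.mul_mem_left _ (h0 _ (J.mul_mem_left _ hy) (shift ?_ hyS))
    rw [mul_zero, zero_add, zero_add, one_mul]

/-! ## principal norms -/

/-- an ideal contained in the ideal generated by its elements `φ h` is principal -/
theorem princ {J : Ideal (RF p D)} (hJ0 : J ≠ ⊥) (φ : L[X] →+* RF p D)
    (h : J ≤ (J.comap φ).map φ) : ∃ b : RF p D, b ≠ 0 ∧ J = Ideal.span {b} := by
  obtain ⟨g, hg⟩ := (IsPrincipalIdealRing.principal (J.comap φ)).principal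
  have hg' : J.comap φ = Ideal.span {g} := hg
  have e : J = Ideal.span {φ g} := by
    have h1 : (J.comap φ).map φ = Ideal.span {φ g} := by
      rw [hg', Ideal.map_span, Set.image_singleton]
    rw [← h1]
    exact le_antisymm h Ideal.map_comap_le
  refine ⟨φ g, ?_, e⟩
  intro h0
  apply hJ0
  rw [e, h0, Ideal.span_singleton_eq_bot]

theorem NN_mul (I J : Ideal (RF p D)) : NN f (I * J) = NN f I * NN f J := by
  unfold NN
  rw [← Finset.prod_mul_distrib]
  exact Finset.prod_congr rfl fun k _ => Ideal.map_mul _ _ _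

theorem NN_span (a : RF p D) : NN f (Ideal.span {a}) =
    Ideal.span {∏ k ∈ Finset.range p, (f ^ k) a} := by
  unfold NN
  rw [← Ideal.prod_span_singleton]
  refine Finset.prod_congr rfl fun k _ => ?_
  rw [Ideal.map_span, Set.image_singleton]

/-- if the norms of the ideals coprime to `t` are principal then all norms are principal -/
theorem all_princ [IsDedekindDomain (RF p D)] (hp : p ≠ 0) (hζ : ζ ^ p = 1)
    (hf : IsAct p D ζ i j f) (t : RF p D) (ht0 : t ≠ 0)
    (h : ∀ J : Ideal (RF p D), J ≠ ⊥ → (∀ z ∈ J, f z ∈ J) → IsCoprime J (Ideal.span {t}) →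
      ∃ b : RF p D, b ≠ 0 ∧ J = Ideal.span {b})
    (ht : ∀ k, ∃ c : L, c ≠ 0 ∧ (f ^ k) t = algebraMap L (RF p D) c * t)
    {I : Ideal (RF p D)} (hI : I ≠ ⊥) : ∃ b : RF p D, b ≠ 0 ∧ NN f I = Ideal.span {b} := by
  by_cases htop : Ideal.span {t} = ⊤
  · refine h _ (NN_ne hζ hf hp hI) (NN_stable hζ hf hI) ?_
    rw [htop, Ideal.isCoprime_iff_sup_eq, sup_top_eq]
  have hIt : I * Ideal.span {t} ≠ 0 := by
    refine mul_ne_zero (by rwa [Ideal.zero_eq_bot]) ?_
    rw [Ideal.zero_eq_bot, Ne, Ideal.span_singleton_eq_bot]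
    exact ht0
  obtain ⟨a, ha⟩ := IsDedekindDomain.exists_sup_span_eq
    (Ideal.mul_le_left : I * Ideal.span {t} ≤ I) hIt
  have haI : Ideal.span {a} ≤ I := by
    rw [← ha]
    exact le_sup_right
  obtain ⟨I₂, hI₂⟩ : I ∣ Ideal.span {a} := Ideal.dvd_iff_le.2 haI
  have hcop : IsCoprime I₂ (Ideal.span {t}) := by
    rw [Ideal.isCoprime_iff_sup_eq]
    have h1 : I * (I₂ ⊔ Ideal.span {t}) = I * ⊤ := by
      rw [Ideal.mul_sup, ← hI₂, Ideal.mul_top, sup_comm]
      exact ha
    exact mul_left_cancel₀ (by rwa [Ideal.zero_eq_bot] : I ≠ 0) h1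
  have hI₂0 : I₂ ≠ ⊥ := by
    rintro rfl
    rw [Ideal.isCoprime_iff_sup_eq, bot_sup_eq] at hcop
    exact htop hcop
  have hN2 : IsCoprime (NN f I₂) (Ideal.span {t}) := by
    unfold NN
    refine IsCoprime.prod_left fun k _ => ?_
    rw [Ideal.isCoprime_iff_sup_eq] at hcop ⊢
    obtain ⟨c, hc, hct⟩ := ht k
    have h1 : (I₂ ⊔ Ideal.span {t}).map (f ^ k) = ⊤ := by rw [hcop, Ideal.map_top]
    rw [Ideal.map_sup, Ideal.map_span, Set.image_singleton, hct] at h1
    rw [← h1]
    congr 1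
    rw [Ideal.span_singleton_mul_left_unit]
    exact (isUnit_iff_ne_zero.2 hc).map (algebraMap L (RF p D))
  obtain ⟨b₂, hb₂, hNb⟩ := h _ (NN_ne hζ hf hp hI₂0) (NN_stable hζ hf hI₂0) hN2
  have h1 : NN f I * Ideal.span {b₂} = Ideal.span {∏ k ∈ Finset.range p, (f ^ k) a} := by
    rw [← hNb, ← NN_mul, ← hI₂, NN_span]
  set Na := ∏ k ∈ Finset.range p, (f ^ k) a with hNa
  have h2 : Na ∈ Ideal.span {b₂} := by
    have h3 : Ideal.span {Na} ≤ Ideal.span {b₂} := by
      rw [← h1]
      exact Ideal.mul_le_right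
    exact h3 (Ideal.mem_span_singleton_self _)
  obtain ⟨c, hc⟩ := Ideal.mem_span_singleton.1 h2
  have h3 : NN f I = Ideal.span {c} := by
    have h4 : NN f I * Ideal.span {b₂} = Ideal.span {c} * Ideal.span {b₂} := by
      rw [h1, hc, Ideal.span_singleton_mul_span_singleton, mul_comm]
    refine mul_right_cancel₀ ?_ h4
    rw [Ideal.zero_eq_bot, Ne, Ideal.span_singleton_eq_bot]
    exact hb₂
  refine ⟨c, ?_, h3⟩
  rintro rfl
  apply NN_ne hζ hf hp hI
  rw [h3]
  simp

/-! ## the groups which fix `X`, or `Y` -/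

theorem eig (s t : RF p D) (φ : L[X] →+* RF p D) (hφC : ∀ c, φ (C c) = algebraMap L (RF p D) c)
    (hφX : φ X = s) (hst : s ^ p + t ^ p = algebraMap L (RF p D) D) {n : ℕ} (hn : n < p)
    {y : RF p D} (hy : y ∈ Submodule.span L {z | ∃ a b : ℕ, p ∣ n + b ∧ z = s ^ a * t ^ b}) :
    ∃ h : L[X], y = t ^ ((p - n) % p) * φ h := by
  induction hy using Submodule.span_induction with
  | mem x hx =>
    obtain ⟨a, b, ⟨c, hc⟩, rfl⟩ := hx
    have hb : b % p = (p - n) % p := by
      rcases Nat.eq_zero_or_pos n with h | h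
      · subst h
        rw [zero_add] at hc
        rw [hc, Nat.mul_mod_right, Nat.sub_zero, Nat.mod_self]
      · obtain ⟨e, rfl⟩ : ∃ e, c = e + 1 := by
          refine ⟨c - 1, ?_⟩
          rcases Nat.eq_zero_or_pos c with h0 | h0
          · subst h0
            omega
          · omega
        have h1 : b = p * e + (p - n) := by
          rw [mul_add, mul_one] at hc
          omega
        rw [h1, Nat.mul_add_mod]
    refine ⟨X ^ a * (C D - X ^ p) ^ (b / p), ?_⟩
    have h1 : φ (C D - X ^ p) = t ^ p := by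
      rw [map_sub, map_pow, hφC, hφX, ← hst]
      ring
    have h2 : t ^ b = t ^ ((p - n) % p) * (t ^ p) ^ (b / p) := by
      rw [← hb, ← pow_mul, ← pow_add, Nat.mod_add_div]
    rw [map_mul, map_pow, map_pow, h1, hφX, h2]
    ring
  | zero => exact ⟨0, by rw [map_zero, mul_zero]⟩
  | add x y _ _ hx hy =>
    obtain ⟨h1, rfl⟩ := hx
    obtain ⟨h2, rfl⟩ := hy
    exact ⟨h1 + h2, by rw [map_add, mul_add]⟩
  | smul c x _ hx =>
    obtain ⟨h1, rfl⟩ := hx
    refine ⟨C c * h1, ?_⟩
    rw [map_mul, hφC, Algebra.smul_def]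
    ring

theorem case23 [Fact p.Prime] [CharZero L] [IsDedekindDomain (RF p D)] (hζ : IsPrimitiveRoot ζ p)
    (hf : IsAct p D ζ i j f) (s t : RF p D) (φ : L[X] →+* RF p D)
    (hφC : ∀ c, φ (C c) = algebraMap L (RF p D) c) (hφX : φ X = s)
    (hst : s ^ p + t ^ p = algebraMap L (RF p D) D)
    (hS : ∀ n, Sn p D i j n ≤ Submodule.span L {z | ∃ a b : ℕ, p ∣ n + b ∧ z = s ^ a * t ^ b})
    (ht0 : t ≠ 0) (ht : ∀ k, ∃ c : L, c ≠ 0 ∧ (f ^ k) t = algebraMap L (RF p D) c * t)
    {I : Ideal (RF p D)} (hI : I ≠ ⊥) : ∃ b : RF p D, b ≠ 0 ∧ NN f I = Ideal.span {b} := by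
  refine all_princ (Fact.out (p := p.Prime)).ne_zero hζ.pow_eq_one hf t ht0 ?_ ht hI
  intro J hJ0 hJ hcop
  refine princ hJ0 φ (stable_le hζ hf hJ fun n hn y hy hyS => ?_)
  obtain ⟨h, hh⟩ := eig s t φ hφC hφX hst hn (hS n hyS)
  set m := (p - n) % p with hm
  have h1 : IsCoprime J (Ideal.span {t ^ m}) := by
    rw [← Ideal.span_singleton_pow]
    exact hcop.pow_right
  obtain ⟨u, hu, w, hw, huw⟩ := Ideal.isCoprime_iff_exists.1 h1
  obtain ⟨v, hv⟩ := Ideal.mem_span_singleton.1 hw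
  have h2 : φ h ∈ J := by
    have h3 : φ h = φ h * u + v * y := by
      calc φ h = φ h * (u + w) := by rw [huw, mul_one]
        _ = _ := by
          rw [hv, hh]
          ring
    rw [h3]
    exact J.add_mem (J.mul_mem_left _ hu) (J.mul_mem_left _ hy)
  rw [hh]
  exact Ideal.mul_mem_left _ _ (Ideal.mem_map_of_mem φ h2)

/-! ## the group `i = j` -/

theorem case4 [Fact p.Prime] [CharZero L] (hp2 : p ≠ 2) (hζ : IsPrimitiveRoot ζ p) (hD : D ≠ 0)
    (hf : IsAct p D ζ 1 1 f) {J : Ideal (RF p D)} (hJ0 : J ≠ ⊥) (hJ : ∀ z ∈ J, f z ∈ J) :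
    ∃ b : RF p D, b ≠ 0 ∧ J = Ideal.span {b} := by
  have hpp : p.Prime := Fact.out
  have hodd : Odd p := hpp.odd_of_ne_two hp2
  set s : RF p D := XF p D + YF p D with hs
  have hunit : IsUnit s := by
    have h1 : s ∣ algebraMap L (RF p D) D := by
      rw [← fermat_eq p D]
      exact hodd.add_dvd_pow_add_pow _ _
    exact isUnit_of_dvd_unit h1 ((isUnit_iff_ne_zero.2 hD).map _)
  obtain ⟨s', hs'⟩ := hunit.exists_right_inv
  set τ : RF p D := YF p D * s' with hτ
  set ψ : L[X] →+* RF p D := ((aeval τ : L[X] →ₐ[L] RF p D) : L[X] →+* RF p D) with hψ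
  have hψC : ∀ c, ψ (C c) = algebraMap L (RF p D) c := fun c => aeval_C τ c
  have hψX : ψ X = τ := aeval_X τ
  have hXs : XF p D * s' = 1 - τ := by
    rw [hτ, ← hs', hs]
    ring
  have hG : s' ^ p = ψ (C D⁻¹ * ((1 - X) ^ p + X ^ p)) := by
    rw [map_mul, hψC, map_add, map_pow, map_pow, map_sub, map_one, hψX, ← hXs, hτ, mul_pow,
      mul_pow, ← add_mul, fermat_eq, ← mul_assoc, ← map_mul, inv_mul_cancel₀ hD, map_one, one_mul]
  set G : L[X] := C D⁻¹ * ((1 - X) ^ p + X ^ p) with hGd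
  have key : ∀ w ∈ Sn p D 1 1 0, ∃ (k : ℕ) (h : L[X]), s' ^ (p * k) * w = ψ h := by
    intro w hw
    unfold Sn at hw
    induction hw using Submodule.span_induction with
    | mem x hx =>
      obtain ⟨a, b, ⟨k, hk⟩, rfl⟩ := hx
      refine ⟨k, (1 - X) ^ a * X ^ b, ?_⟩
      have h1 : p * k = a + b := by
        rw [← hk]
        ring
      rw [h1, map_mul, map_pow, map_pow, map_sub, map_one, hψX, ← hXs, hτ]
      unfold mo
      ring
    | zero => exact ⟨0, 0, by rw [map_zero, mul_zero]⟩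
    | add x y _ _ hx hy =>
      obtain ⟨k1, h1, e1⟩ := hx
      obtain ⟨k2, h2, e2⟩ := hy
      refine ⟨k1 + k2, G ^ k2 * h1 + G ^ k1 * h2, ?_⟩
      rw [map_add, map_mul, map_mul, map_pow, map_pow, ← hG, ← e1, ← e2]
      ring
    | smul c x _ hx =>
      obtain ⟨k, h, e⟩ := hx
      refine ⟨k, C c * h, ?_⟩
      rw [map_mul, hψC, ← e, Algebra.smul_def]
      ring
  have hsh : ∀ (n : ℕ) (y : RF p D), y ∈ Sn p D 1 1 n → s ^ n * y ∈ Sn p D 1 1 0 := by
    intro n
    induction n with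
    | zero =>
      intro y hy
      rwa [pow_zero, one_mul]
    | succ n ih =>
      intro y hy
      have h1 : s * y = mo p D 1 0 * y + mo p D 0 1 * y := by
        unfold mo
        rw [hs]
        ring
      have h2 : s * y ∈ Sn p D 1 1 n := by
        rw [h1]
        refine Submodule.add_mem _ (shift ?_ hy) (shift ?_ hy)
        · exact Nat.ModEq.refl _
        · exact Nat.ModEq.refl _
      rw [pow_succ, mul_assoc]
      exact ih _ h2
  refine princ hJ0 ψ (stable_le hζ hf hJ fun n hn y hy hyS => ?_)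
  obtain ⟨k, h, e⟩ := key _ (hsh n y hyS)
  have h1 : ψ h ∈ J := by
    rw [← e]
    exact J.mul_mem_left _ (J.mul_mem_left _ hy)
  have h2 : ψ h ∈ (J.comap ψ).map ψ := Ideal.mem_map_of_mem ψ h1
  have h3 : y = (s' ^ n * s ^ (p * k)) * ψ h := by
    rw [← e]
    have e1 : s' ^ n * s ^ n = 1 := by rw [← mul_pow, mul_comm, hs', one_pow]
    have e2 : s ^ (p * k) * s' ^ (p * k) = 1 := by rw [← mul_pow, hs', one_pow]
    calc y = (s' ^ n * s ^ n) * (s ^ (p * k) * s' ^ (p * k)) * y := by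
          rw [e1, e2, one_mul, one_mul]
      _ = _ := by ring
  rw [h3]
  exact Ideal.mul_mem_left _ _ h2

end

theorem YF_ne {p : ℕ} [Fact p.Prime] {L : Type} [Field L] (D : L) : YF p D ≠ 0 := by
  have h2 : 2 ≤ p := (Fact.out (p := p.Prime)).two_le
  have h := AdjoinRoot.mk_ne_zero_of_natDegree_lt (fF_monic p D) (g := X) X_ne_zero (by
    rw [fF_natDegree, natDegree_X]
    omega)
  rwa [AdjoinRoot.mk_X] at h

theorem XF_ne {p : ℕ} [Fact p.Prime] {L : Type} [Field L] (D : L) : XF p D ≠ 0 := by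
  have h2 : 2 ≤ p := (Fact.out (p := p.Prime)).two_le
  have h := AdjoinRoot.mk_ne_zero_of_natDegree_lt (fF_monic p D) (g := C X) (C_ne_zero.2 X_ne_zero)
    (by
      rw [fF_natDegree, natDegree_C]
      omega)
  rwa [AdjoinRoot.mk_C] at h

theorem fnr : S_BSC → S_DED → S_FNR := by
  intro _ hDED p _ hp2 L _ _ ζ hζ D hD f hact I hI
  have hpp : p.Prime := Fact.out
  haveI hOk : Ok p 1 := ⟨le_rfl, by
    have := hpp.two_le
    omega⟩
  haveI : IsDedekindDomain (RF p D) := (hDED p 1 L D hD).2.2.1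
  have e : ∀ i j k, f (i * k) (j * k) = (f i j) ^ k := fun i j k =>
    act_ext (act_smul (hact _ _)) (pow_smul (hact i j) k) fun a b => by
      rw [act_mo (hact _ _), pow_mo (hact i j)]
      congr 2
      ring
  refine ⟨?_, ?_, ?_, ?_⟩
  · intro r hr
    have hr1 := hr.h1
    have hr2 := hr.h2
    have e1 : ∏ j ∈ Finset.range p, I.map (f ((p - r) * j) j) = NN (f (p - r) 1) I := by
      unfold NN
      refine Finset.prod_congr rfl fun k _ => ?_
      have := e (p - r) 1 k
      rw [one_mul] at this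
      rw [this]
    rw [e1]
    have h1 := quot hζ hD hr1 (by omega) (hact (p - r) 1)
      (NN_stable hζ.pow_eq_one (hact (p - r) 1) hI)
    refine ⟨_, ?_, h1⟩
    intro h2
    rw [h2, Ideal.map_bot] at h1
    exact NN_ne hζ.pow_eq_one (hact (p - r) 1) hpp.ne_zero hI h1
  · have e1 : ∏ j ∈ Finset.range p, I.map (f 0 j) = NN (f 0 1) I := by
      unfold NN
      refine Finset.prod_congr rfl fun k _ => ?_
      have := e 0 1 k
      rw [one_mul, zero_mul] at this
      rw [this]
    rw [e1]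
    refine case23 hζ (hact 0 1) (XF p D) (YF p D) (AdjoinRoot.of (fF p D)) (fun c => rfl) rfl
      (fermat_eq p D) ?_ (YF_ne D) ?_ hI
    · intro n
      refine Submodule.span_mono ?_
      rintro z ⟨a, b, hab, rfl⟩
      refine ⟨a, b, ?_, rfl⟩
      rwa [zero_mul, zero_add, one_mul] at hab
    · intro k
      refine ⟨ζ ^ k, pow_ne_zero _ (hζ.ne_zero hpp.ne_zero), ?_⟩
      have := pow_mo (hact 0 1) k 0 1
      rw [Algebra.smul_def] at this
      unfold mo at this
      simpa using this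
  · have e1 : ∏ j ∈ Finset.range p, I.map (f j 0) = NN (f 1 0) I := by
      unfold NN
      refine Finset.prod_congr rfl fun k _ => ?_
      have := e 1 0 k
      rw [one_mul, zero_mul] at this
      rw [this]
    rw [e1]
    refine case23 hζ (hact 1 0) (YF p D) (XF p D)
      ((aeval (YF p D) : L[X] →ₐ[L] RF p D) : L[X] →+* RF p D) (fun c => aeval_C _ c) (aeval_X _)
      (by rw [add_comm]; exact fermat_eq p D) ?_ (XF_ne D) ?_ hI
    · intro n
      refine Submodule.span_mono ?_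
      rintro z ⟨a, b, hab, rfl⟩
      refine ⟨b, a, ?_, ?_⟩
      · rwa [zero_mul, add_zero, one_mul] at hab
      · unfold mo
        ring
    · intro k
      refine ⟨ζ ^ k, pow_ne_zero _ (hζ.ne_zero hpp.ne_zero), ?_⟩
      have := pow_mo (hact 1 0) k 1 0
      rw [Algebra.smul_def] at this
      unfold mo at this
      simpa using this
  · have e1 : ∏ j ∈ Finset.range p, I.map (f j j) = NN (f 1 1) I := by
      unfold NN
      refine Finset.prod_congr rfl fun k _ => ?_
      have := e 1 1 k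
      rw [one_mul] at this
      rw [this]
    rw [e1]
    exact case4 hp2 hζ hD (hact 1 1) (NN_ne hζ.pow_eq_one (hact 1 1) hpp.ne_zero hI)
      (NN_stable hζ.pow_eq_one (hact 1 1) hI)

end Pool.Agent.Q214.CF
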