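import Pool.Agent.Q7.CF.Stm

/-!
# Project CF of helper7, job FNR, part 1: monomials, weights, stable ideals
-/

set_option autoImplicit false

namespace Pool.Agent.Q214.CF

open Polynomial Pool.Agent.Q7.CF

section

variable {p : ℕ} {L : Type} [Field L] {D : L}

/-- the monomials -/
noncomputable def mo (p : ℕ) {L : Type} [Field L] (D : L) (a b : ℕ) : RF p D :=
  XF p D ^ a * YF p D ^ b

theorem mo_mul (a b c d : ℕ) : mo p D a b * mo p D c d = mo p D (a + c) (b + d) := by
  unfold mo
  ring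

theorem span_mo (z : RF p D) :
    z ∈ Submodule.span L (Set.range fun q : ℕ × ℕ => mo p D q.1 q.2) := by
  obtain ⟨F, rfl⟩ := AdjoinRoot.mk_surjective z
  induction F using Polynomial.induction_on' with
  | add F G hF hG => rw [map_add]; exact Submodule.add_mem _ hF hG
  | monomial n c =>
    induction c using Polynomial.induction_on' with
    | add F G hF hG => rw [map_add, map_add]; exact Submodule.add_mem _ hF hG
    | monomial m a =>
      have e : AdjoinRoot.mk (fF p D) (monomial n (monomial m a)) = a • mo p D m n := by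
        rw [← C_mul_X_pow_eq_monomial, ← C_mul_X_pow_eq_monomial, map_mul, map_pow,
          AdjoinRoot.mk_X, AdjoinRoot.mk_C, map_mul, map_pow, Algebra.smul_def, mul_assoc]
        rfl
      rw [e]
      exact Submodule.smul_mem _ _ (Submodule.subset_span ⟨(m, n), rfl⟩)

variable {ζ : L} {i j : ℕ} {f : RF p D →+* RF p D}

theorem act_smul (hf : IsAct p D ζ i j f) (c : L) (z : RF p D) : f (c • z) = c • f z := by
  rw [Algebra.smul_def, map_mul, hf.1, ← Algebra.smul_def]

theorem act_mo (hf : IsAct p D ζ i j f) (a b : ℕ) :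
    f (mo p D a b) = ζ ^ (i * a + j * b) • mo p D a b := by
  unfold mo
  rw [map_mul, map_pow, map_pow, hf.2.1, hf.2.2, mul_pow, mul_pow, ← map_pow, ← map_pow,
    ← pow_mul, ← pow_mul, Algebra.smul_def, pow_add, map_mul]
  ring

theorem act_ext {f g : RF p D →+* RF p D} (h1 : ∀ c : L, ∀ z, f (c • z) = c • f z)
    (h2 : ∀ c : L, ∀ z, g (c • z) = c • g z) (h : ∀ a b, f (mo p D a b) = g (mo p D a b)) :
    f = g := by
  refine RingHom.ext fun z => ?_
  have hz := span_mo z
  induction hz using Submodule.span_induction with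
  | mem x hx =>
    obtain ⟨q, rfl⟩ := hx
    exact h q.1 q.2
  | zero => rw [map_zero, map_zero]
  | add x y _ _ hx hy => rw [map_add, map_add, hx, hy]
  | smul c x _ hx => rw [h1, h2, hx]

theorem pow_smul (hf : IsAct p D ζ i j f) (k : ℕ) (c : L) (z : RF p D) :
    (f ^ k) (c • z) = c • (f ^ k) z := by
  induction k with
  | zero => rw [pow_zero]; rfl
  | succ k ih =>
    rw [pow_succ']
    change f ((f ^ k) (c • z)) = c • f ((f ^ k) z)
    rw [ih, act_smul hf]

theorem pow_mo (hf : IsAct p D ζ i j f) (k a b : ℕ) :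
    (f ^ k) (mo p D a b) = ζ ^ (k * (i * a + j * b)) • mo p D a b := by
  induction k with
  | zero => rw [pow_zero, zero_mul, pow_zero, one_smul]; rfl
  | succ k ih =>
    rw [pow_succ']
    change f ((f ^ k) (mo p D a b)) = _
    rw [ih, act_smul hf, act_mo hf, smul_smul, ← pow_add]
    congr 2
    ring

/-- the span of the monomials of weight `-n` -/
noncomputable def Sn (p : ℕ) {L : Type} [Field L] (D : L) (i j n : ℕ) : Submodule L (RF p D) :=
  Submodule.span L {z | ∃ a b : ℕ, p ∣ n + (i * a + j * b) ∧ z = mo p D a b}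

/-- the projections -/
noncomputable def Pn (ζ : L) (f : RF p D →+* RF p D) (n : ℕ) (z : RF p D) : RF p D :=
  ∑ k ∈ Finset.range p, ζ ^ (n * k) • (f ^ k) z

theorem Pn_add (n : ℕ) (y z : RF p D) : Pn ζ f n (y + z) = Pn ζ f n y + Pn ζ f n z := by
  unfold Pn
  rw [← Finset.sum_add_distrib]
  exact Finset.sum_congr rfl fun k _ => by rw [map_add, smul_add]

theorem Pn_smul (hf : IsAct p D ζ i j f) (n : ℕ) (c : L) (z : RF p D) :
    Pn ζ f n (c • z) = c • Pn ζ f n z := by
  unfold Pn
  rw [Finset.smul_sum]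
  exact Finset.sum_congr rfl fun k _ => by rw [pow_smul hf, smul_comm]

theorem geom [Fact p.Prime] (hζ : IsPrimitiveRoot ζ p) (m : ℕ) :
    ∑ k ∈ Finset.range p, ζ ^ (m * k) = if p ∣ m then (p : L) else 0 := by
  split_ifs with h
  · obtain ⟨c, rfl⟩ := h
    have : ∀ k ∈ Finset.range p, ζ ^ (p * c * k) = 1 := by
      intro k _
      rw [mul_assoc, pow_mul, hζ.pow_eq_one, one_pow]
    rw [Finset.sum_congr rfl this]
    simp
  · have h1 : ζ ^ m ≠ 1 := fun h2 => h (hζ.dvd_of_pow_eq_one m h2)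
    have h2 : (∑ k ∈ Finset.range p, (ζ ^ m) ^ k) * (ζ ^ m - 1) = (ζ ^ m) ^ p - 1 :=
      geom_sum_mul _ _
    rw [← pow_mul, mul_comm m p, pow_mul, hζ.pow_eq_one, one_pow, sub_self] at h2
    have h3 := (mul_eq_zero.1 h2).resolve_right (sub_ne_zero.2 h1)
    rw [← h3]
    exact Finset.sum_congr rfl fun k _ => pow_mul _ _ _

theorem Pn_mem [Fact p.Prime] (hζ : IsPrimitiveRoot ζ p) (hf : IsAct p D ζ i j f) (n : ℕ)
    (z : RF p D) : Pn ζ f n z ∈ Sn p D i j n := by
  have hz := span_mo z
  induction hz using Submodule.span_induction with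
  | mem x hx =>
    obtain ⟨⟨a, b⟩, rfl⟩ := hx
    have e : Pn ζ f n (mo p D a b) =
        (∑ k ∈ Finset.range p, ζ ^ ((n + (i * a + j * b)) * k)) • mo p D a b := by
      unfold Pn
      rw [Finset.sum_smul]
      refine Finset.sum_congr rfl fun k _ => ?_
      rw [pow_mo hf, smul_smul, ← pow_add]
      congr 2
      ring
    change Pn ζ f n (mo p D a b) ∈ _
    rw [e, geom hζ]
    split_ifs with h
    · exact Submodule.smul_mem _ _ (Submodule.subset_span ⟨a, b, h, rfl⟩)
    · rw [zero_smul]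
      exact Submodule.zero_mem _
  | zero =>
    have : Pn ζ f n (0 : RF p D) = 0 := by
      unfold Pn
      exact Finset.sum_eq_zero fun k _ => by rw [map_zero, smul_zero]
    rw [this]
    exact Submodule.zero_mem _
  | add x y _ _ hx hy => rw [Pn_add]; exact Submodule.add_mem _ hx hy
  | smul c x _ hx => rw [Pn_smul hf]; exact Submodule.smul_mem _ _ hx

theorem Pn_sum [Fact p.Prime] (hζ : IsPrimitiveRoot ζ p) (z : RF p D) :
    ∑ n ∈ Finset.range p, Pn ζ f n z = (p : L) • z := by
  unfold Pn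
  rw [Finset.sum_comm]
  have h : ∀ k ∈ Finset.range p, ∑ n ∈ Finset.range p, ζ ^ (n * k) • (f ^ k) z =
      if k = 0 then (p : L) • z else 0 := by
    intro k hk
    rw [Finset.mem_range] at hk
    rw [← Finset.sum_smul]
    have h1 : ∑ n ∈ Finset.range p, ζ ^ (n * k) = if p ∣ k then (p : L) else 0 := by
      rw [← geom hζ]
      exact Finset.sum_congr rfl fun n _ => by rw [mul_comm]
    rw [h1]
    by_cases h0 : k = 0
    · subst h0
      rw [if_pos (dvd_zero p), if_pos rfl, pow_zero]
      rfl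
    · rw [if_neg h0, if_neg, zero_smul]
      intro h2
      exact absurd (Nat.le_of_dvd (Nat.pos_of_ne_zero h0) h2) (not_le.2 hk)
  rw [Finset.sum_congr rfl h, Finset.sum_ite_eq' (Finset.range p) 0 fun _ => (p : L) • z, if_pos]
  rw [Finset.mem_range]
  exact (Fact.out (p := p.Prime)).pos

theorem stable_le [Fact p.Prime] [CharZero L] (hζ : IsPrimitiveRoot ζ p) (hf : IsAct p D ζ i j f)
    {J K : Ideal (RF p D)} (hJ : ∀ z ∈ J, f z ∈ J)
    (h : ∀ n, n < p → ∀ y ∈ J, y ∈ Sn p D i j n → y ∈ K) : J ≤ K := by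
  intro z hz
  have h1 : ∀ k : ℕ, (f ^ k) z ∈ J := by
    intro k
    induction k with
    | zero => rw [pow_zero]; exact hz
    | succ k ih =>
      rw [pow_succ']
      exact hJ _ ih
  have h2 : ∀ n ∈ Finset.range p, Pn ζ f n z ∈ K := by
    intro n hn
    refine h n (Finset.mem_range.1 hn) _ ?_ (Pn_mem hζ hf n z)
    unfold Pn
    refine J.sum_mem fun k _ => ?_
    rw [Algebra.smul_def]
    exact J.mul_mem_left _ (h1 k)
  have h3 := K.sum_mem h2
  rw [Pn_sum hζ, Algebra.smul_def] at h3
  have hp : (p : L) ≠ 0 := by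
    exact_mod_cast (Fact.out (p := p.Prime)).ne_zero
  have h4 := K.mul_mem_left (algebraMap L (RF p D) (p : L)⁻¹) h3
  rwa [← mul_assoc, ← map_mul, inv_mul_cancel₀ hp, map_one, one_mul] at h4

theorem shift {n n' a' b' : ℕ} (h : n ≡ n' + (i * a' + j * b') [MOD p]) {y : RF p D}
    (hy : y ∈ Sn p D i j n) : mo p D a' b' * y ∈ Sn p D i j n' := by
  unfold Sn at hy
  induction hy using Submodule.span_induction with
  | mem x hx =>
    obtain ⟨a, b, hab, rfl⟩ := hx
    rw [mo_mul]
    refine Submodule.subset_span ⟨a' + a, b' + b, ?_, rfl⟩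
    have h1 : n + (i * a + j * b) ≡ n' + (i * a' + j * b') + (i * a + j * b) [MOD p] :=
      h.add_right _
    have h2 : n' + (i * (a' + a) + j * (b' + b)) =
        n' + (i * a' + j * b') + (i * a + j * b) := by ring
    rw [h2]
    exact (Nat.modEq_zero_iff_dvd.1 ((h1.symm).trans (Nat.modEq_zero_iff_dvd.2 hab)))
  | zero => rw [mul_zero]; exact Submodule.zero_mem _
  | add x y _ _ hx hy => rw [mul_add]; exact Submodule.add_mem _ hx hy
  | smul c x _ hx => rw [mul_smul_comm]; exact Submodule.smul_mem _ _ hx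

/-- the product of the conjugates -/
noncomputable def NN (f : RF p D →+* RF p D) (I : Ideal (RF p D)) : Ideal (RF p D) :=
  ∏ k ∈ Finset.range p, I.map (f ^ k)

theorem pow_p (hζ : ζ ^ p = 1) (hf : IsAct p D ζ i j f) : f ^ p = 1 := by
  refine act_ext (pow_smul hf p) (fun c z => rfl) fun a b => ?_
  rw [pow_mo hf, pow_mul, hζ, one_pow, one_smul]
  rfl

theorem pow_inj (hζ : ζ ^ p = 1) (hf : IsAct p D ζ i j f) (hp : p ≠ 0) (k : ℕ) :
    Function.Injective (f ^ k) := by
  have h1 : Function.Injective f := by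
    intro x y hxy
    have h2 : (f ^ p) x = (f ^ p) y := by
      obtain ⟨m, rfl⟩ : ∃ m, p = m + 1 := ⟨p - 1, by omega⟩
      rw [pow_succ]
      change (f ^ m) (f x) = (f ^ m) (f y)
      rw [hxy]
    rw [pow_p hζ hf] at h2
    exact h2
  rw [RingHom.coe_pow]
  exact h1.iterate k

theorem NN_ne [IsDomain (RF p D)] (hζ : ζ ^ p = 1) (hf : IsAct p D ζ i j f) (hp : p ≠ 0)
    {I : Ideal (RF p D)} (hI : I ≠ ⊥) : NN f I ≠ ⊥ := by
  unfold NN
  rw [← Ideal.zero_eq_bot, Finset.prod_ne_zero_iff]
  intro k _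
  rw [Ideal.zero_eq_bot]
  intro h
  exact hI ((Ideal.map_eq_bot_iff_of_injective (pow_inj hζ hf hp k)).1 h)

theorem NN_stable [IsDedekindDomain (RF p D)] (hζ : ζ ^ p = 1) (hf : IsAct p D ζ i j f)
    {I : Ideal (RF p D)} (hI : I ≠ ⊥) : ∀ z ∈ NN f I, f z ∈ NN f I := by
  have h1 : (NN f I).map f = NN f I := by
    have h2 : (NN f I).map f = ∏ k ∈ Finset.range p, I.map (f ^ (k + 1)) := by
      unfold NN
      have h3 := map_prod (Ideal.mapHom f) (fun k => I.map (f ^ k)) (Finset.range p)
      refine h3.trans ?_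
      refine Finset.prod_congr rfl fun k _ => ?_
      change (I.map (f ^ k)).map f = _
      rw [Ideal.map_map, pow_succ']
      rfl
    rw [h2]
    have h4 := Finset.prod_range_succ' (fun k => I.map (f ^ k)) p
    have h5 := Finset.prod_range_succ (fun k => I.map (f ^ k)) p
    rw [h5] at h4
    have h6 : I.map (f ^ p) = I.map (f ^ 0) := by rw [pow_p hζ hf, pow_zero]
    rw [h6] at h4
    have h7 : I.map (f ^ 0) ≠ 0 := by
      rw [pow_zero, Ideal.zero_eq_bot]
      have : I.map (1 : RF p D →+* RF p D) = I := Ideal.map_id I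
      rw [this]
      exact hI
    exact (mul_right_cancel₀ h7 h4).symm
  intro z hz
  have := Ideal.mem_map_of_mem f hz
  rwa [h1] at this

end

end Pool.Agent.Q214.CF
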