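import Pool.Agent.Q7.CF.Stm
import Pool.Agent.Q241.CJ.NIc

/-!
# Project CF of helper7, job NI: the norm of an ideal (after helper241, `Pool/Agent/Q241/CJ`)
-/

set_option autoImplicit false

namespace Pool.Agent.Q214.CF.NI

open Polynomial Pool.Agent.Q7.CF
open Pool.Agent.Q241.CJ (rel_all eval_cp)

section

variable {p r : ℕ} {L : Type} [Field L] {D : L}

/-- the basis elements -/
noncomputable def vi (p r : ℕ) {L : Type} [Field L] (D : L) (i : ℕ) : BQ p r D :=
  ⟨XF p D ^ i * YF p D ^ (r * i % p), mons_mem p r D (Nat.mod_modEq _ _)⟩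

/-- `BQ` as an algebra over `L[u]` -/
@[reducible] noncomputable def algB (p r : ℕ) {L : Type} [Field L] (D : L) :
    Algebra L[X] (BQ p r D) :=
  ((aeval (uu p r D) : L[X] →ₐ[L] BQ p r D) : L[X] →+* BQ p r D).toAlgebra

attribute [local instance] algB

theorem alg_eq (g : L[X]) : algebraMap L[X] (BQ p r D) g = aeval (uu p r D) g := rfl

theorem tower : IsScalarTower L L[X] (BQ p r D) :=
  IsScalarTower.of_algebraMap_eq fun x => (aeval_C (uu p r D) x).symm

theorem basis_exists (h : ∀ z : BQ p r D, ∃! f : Fin p → L[X],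
    z = ∑ i : Fin p, aeval (uu p r D) (f i) * vi p r D i) :
    ∃ b : Module.Basis (Fin p) L[X] (BQ p r D), ∀ i, b i = vi p r D i := by
  have hli : LinearIndependent L[X] (fun i : Fin p => vi p r D i) := by
    rw [Fintype.linearIndependent_iff]
    intro g hg i
    obtain ⟨f, -, hf⟩ := h 0
    have h1 := hf g (by
      rw [← hg]
      exact Finset.sum_congr rfl fun i _ => Algebra.smul_def _ _)
    have h2 := hf (fun _ => 0) (by simp)
    rw [← h2] at h1
    exact congrFun h1 i
  have hsp : ⊤ ≤ Submodule.span L[X] (Set.range fun i : Fin p => vi p r D i) := by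
    intro z _
    obtain ⟨f, hf, -⟩ := h z
    rw [hf]
    refine Submodule.sum_mem _ fun i _ => ?_
    have h1 : aeval (uu p r D) (f i) * vi p r D i = f i • vi p r D i := (Algebra.smul_def _ _).symm
    rw [h1]
    exact Submodule.smul_mem _ _ (Submodule.subset_span ⟨i, rfl⟩)
  exact ⟨Module.Basis.mk hli hsp, fun i => Module.Basis.mk_apply hli hsp i⟩

variable {ζ : L}

theorem sgi_vi (hζ : ζ ^ p = 1) (j i : ℕ) : sgi p r D ζ hζ j (vi p r D i) =
    algebraMap L (BQ p r D) ((ζ ^ (r * i % p)) ^ j) * vi p r D i := by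
  apply Subtype.ext
  unfold sgi
  rw [sg_val]
  change sF p D (ζ ^ j) _ (XF p D ^ i * YF p D ^ (r * i % p)) =
    algebraMap L (RF p D) ((ζ ^ (r * i % p)) ^ j) * (XF p D ^ i * YF p D ^ (r * i % p))
  rw [map_mul, map_pow, map_pow, sF_XF, sF_YF, mul_pow, ← map_pow, ← pow_mul, ← pow_mul,
    mul_comm j]
  ring

theorem sgi_uu (hζ : ζ ^ p = 1) (j : ℕ) : sgi p r D ζ hζ j (uu p r D) = uu p r D := by
  apply Subtype.ext
  unfold sgi
  rw [sg_val]
  change sF p D (ζ ^ j) _ (XF p D ^ p) = XF p D ^ p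
  rw [map_pow, sF_XF]

theorem sgi_alg (hζ : ζ ^ p = 1) (j : ℕ) (c : L) : sgi p r D ζ hζ j (algebraMap L (BQ p r D) c) =
    algebraMap L (BQ p r D) c := by
  apply Subtype.ext
  unfold sgi
  rw [sg_val]
  exact sF_of p D (ζ ^ j) _ (C c)

theorem sgi_poly (hζ : ζ ^ p = 1) (j : ℕ) (g : L[X]) :
    sgi p r D ζ hζ j (algebraMap L[X] (BQ p r D) g) = algebraMap L[X] (BQ p r D) g := by
  rw [alg_eq, aeval_def, hom_eval₂, sgi_uu]
  congr 1
  exact RingHom.ext fun c => sgi_alg hζ j c

theorem vi_ne [Fact p.Prime] [IsDomain (BQ p r D)]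
    (b : Module.Basis (Fin p) L[X] (BQ p r D)) (hb : ∀ i, b i = vi p r D i) (i : Fin p) :
    vi p r D i ≠ 0 := by
  rw [← hb]
  exact b.ne_zero i

theorem alg_inj [Fact p.Prime] [IsDomain (BQ p r D)] :
    Function.Injective (algebraMap L (BQ p r D)) := (algebraMap L (BQ p r D)).injective

theorem mod_inj [Fact p.Prime] [Ok p r] {i j : ℕ} (hi : i < p) (hj : j < p)
    (h : r * i % p = r * j % p) : i = j := by
  have hpp : p.Prime := Fact.out
  have h1 : r * i ≡ r * j [MOD p] := h
  have hr1 := (‹Ok p r›).h1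
  have hr2 := (‹Ok p r›).h2
  have hcop : Nat.gcd p r = 1 := by
    rw [← Nat.Coprime, hpp.coprime_iff_not_dvd]
    intro h2
    have := Nat.le_of_dvd (by omega) h2
    omega
  have h2 := Nat.ModEq.cancel_left_of_coprime hcop h1
  exact Nat.ModEq.eq_of_lt_of_lt h2 hi hj

/-- The norm of an element. -/
theorem norm_prod [Fact p.Prime] [Ok p r] [IsDomain (BQ p r D)] (hζ : ζ ^ p = 1)
    (hp : IsPrimitiveRoot ζ p) (bas : Module.Basis (Fin p) L[X] (BQ p r D))
    (hb : ∀ i, bas i = vi p r D i) (b : BQ p r D) :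
    algebraMap L[X] (BQ p r D) (Algebra.norm L[X] b) =
      ∏ i ∈ Finset.range p, sgi p r D ζ hζ i b := by
  classical
  set V : Matrix (Fin p) (Fin p) (BQ p r D) := Matrix.of fun j i =>
    sgi p r D ζ hζ (j : ℕ) (vi p r D (i : ℕ)) with hV
  set M : Matrix (Fin p) (Fin p) (BQ p r D) :=
    (algebraMap L[X] (BQ p r D)).mapMatrix (Algebra.leftMulMatrix bas b) with hM
  have key : Matrix.diagonal (fun i : Fin p => sgi p r D ζ hζ i b) * V = V * M := by
    refine Matrix.ext fun j i => ?_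
    rw [Matrix.diagonal_mul, Matrix.mul_apply]
    have h1 : b * bas i = ∑ k, (Algebra.leftMulMatrix bas b) k i • bas k := by
      rw [← bas.sum_repr (b * bas i)]
      refine Finset.sum_congr rfl fun k _ => ?_
      rw [Algebra.leftMulMatrix_eq_repr_mul]
    have h2 := congrArg (sgi p r D ζ hζ j) h1
    rw [map_mul, map_sum] at h2
    have h5 : V j i = sgi p r D ζ hζ (j : ℕ) (bas i) := by rw [hV, Matrix.of_apply, hb]
    rw [h5, h2]
    apply Finset.sum_congr rfl
    intro k _
    have h6 : V j k = sgi p r D ζ hζ (j : ℕ) (vi p r D (k : ℕ)) := by rw [hV, Matrix.of_apply]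
    rw [h6]
    rw [hM, RingHom.mapMatrix_apply, Matrix.map_apply, Algebra.smul_def, map_mul,
      sgi_poly, mul_comm, hb]
  have hVdet : V.det ≠ 0 := by
    have e : V = (Matrix.vandermonde (fun i : Fin p =>
        algebraMap L (BQ p r D) (ζ ^ (r * (i : ℕ) % p)))).transpose *
        Matrix.diagonal (fun i : Fin p => vi p r D (i : ℕ)) := by
      refine Matrix.ext fun j i => ?_
      rw [Matrix.mul_diagonal, Matrix.transpose_apply, Matrix.vandermonde_apply, hV,
        Matrix.of_apply, sgi_vi, map_pow]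
    rw [e, Matrix.det_mul, Matrix.det_transpose, Matrix.det_diagonal]
    refine mul_ne_zero ?_ (Finset.prod_ne_zero_iff.2 fun i _ => vi_ne bas hb i)
    rw [Matrix.det_vandermonde_ne_zero_iff]
    intro i j hij
    have h1 := alg_inj hij
    have hpos : 0 < p := (Fact.out (p := p.Prime)).pos
    have h2 := hp.pow_inj (Nat.mod_lt _ hpos) (Nat.mod_lt _ hpos) h1
    exact Fin.ext (mod_inj i.2 j.2 h2)
  have h3 := congrArg Matrix.det key
  rw [Matrix.det_mul, Matrix.det_mul, Matrix.det_diagonal, mul_comm] at h3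
  have h4 := mul_left_cancel₀ hVdet h3
  rw [Algebra.norm_eq_matrix_det bas b, RingHom.map_det, ← hM, ← h4]
  rw [← Finset.prod_range (fun i => sgi p r D ζ hζ i b)]

/-- A cancellation. -/
theorem cancel_dvd {S : Type} [CommRing S] [IsDedekindDomain S] {a a' b b' : Ideal S} (h1 : a ∣ a')
    (h2 : b ∣ b') (h3 : a' * b' = a * b) (h4 : a * b ≠ ⊥) : a' = a := by
  obtain ⟨u, rfl⟩ := h1
  obtain ⟨v, rfl⟩ := h2
  have h5 : (a * b) * (u * v) = (a * b) * 1 := by
    rw [mul_one, mul_mul_mul_comm]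
    exact h3
  have h6 := mul_left_cancel₀ (by exact h4) h5
  have h7 : IsUnit u := IsUnit.of_mul_eq_one v h6
  rw [Ideal.isUnit_iff.1 h7, Ideal.mul_top]

/-- The product of the conjugates of an ideal is generated by the relative norm. -/
theorem prod_eq [Fact p.Prime] [Ok p r] [IsDedekindDomain (BQ p r D)] (hζ : ζ ^ p = 1)
    (hp : IsPrimitiveRoot ζ p) (bas : Module.Basis (Fin p) L[X] (BQ p r D))
    (hb : ∀ i, bas i = vi p r D i)
    [Module.Finite L[X] (BQ p r D)] [Module.Free L[X] (BQ p r D)]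
    [Module.IsTorsionFree L[X] (BQ p r D)]
    (I : Ideal (BQ p r D)) (hI : I ≠ ⊥) :
    ∏ i ∈ Finset.range p, I.map (sgi p r D ζ hζ i) =
      (Ideal.relNorm L[X] I).map (algebraMap L[X] (BQ p r D)) := by
  have hN : ∀ b : BQ p r D, Algebra.intNorm L[X] (BQ p r D) b = Algebra.norm L[X] b := fun b => by
    rw [Algebra.intNorm_eq_norm]
  have hle : ∀ J : Ideal (BQ p r D), ∏ i ∈ Finset.range p, J.map (sgi p r D ζ hζ i) ∣
      (Ideal.relNorm L[X] J).map (algebraMap L[X] (BQ p r D)) := by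
    intro J
    rw [Ideal.dvd_iff_le, Ideal.relNorm_apply, Ideal.map_span, Ideal.span_le]
    rintro _ ⟨_, ⟨b, hb', rfl⟩, rfl⟩
    rw [hN, norm_prod hζ hp bas hb]
    exact Ideal.prod_mem_prod (fun i _ => Ideal.mem_map_of_mem _ hb')
  obtain ⟨b, hbI, hb0⟩ := Submodule.exists_mem_ne_zero_of_ne_bot hI
  have hbd : Ideal.span {b} ≤ I := (Ideal.span_singleton_le_iff_mem _).2 hbI
  obtain ⟨J, hJ⟩ := Ideal.dvd_iff_le.2 hbd
  have h1 : (Ideal.relNorm L[X] I).map (algebraMap L[X] (BQ p r D)) *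
      (Ideal.relNorm L[X] J).map (algebraMap L[X] (BQ p r D)) =
      Ideal.span {∏ i ∈ Finset.range p, sgi p r D ζ hζ i b} := by
    rw [← Ideal.map_mul, ← map_mul, ← hJ, Ideal.relNorm_singleton, Ideal.map_span,
      Set.image_singleton, hN, norm_prod hζ hp bas hb]
  have h2 : (∏ i ∈ Finset.range p, I.map (sgi p r D ζ hζ i)) *
      (∏ i ∈ Finset.range p, J.map (sgi p r D ζ hζ i)) =
      Ideal.span {∏ i ∈ Finset.range p, sgi p r D ζ hζ i b} := by
    rw [← Finset.prod_mul_distrib, ← Ideal.prod_span_singleton]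
    refine Finset.prod_congr rfl fun i _ => ?_
    rw [← Ideal.map_mul, ← hJ, Ideal.map_span, Set.image_singleton]
  have h3 : Ideal.span {∏ i ∈ Finset.range p, sgi p r D ζ hζ i b} ≠ ⊥ := by
    rw [Ne, Ideal.span_singleton_eq_bot, ← norm_prod hζ hp bas hb]
    intro h
    have h4 := (FaithfulSMul.algebraMap_injective L[X] (BQ p r D)) (h.trans (map_zero _).symm)
    exact hb0 ((Algebra.norm_eq_zero_iff).1 h4)
  exact (cancel_dvd (hle I) (hle J) (h1.trans h2.symm) (by rw [h2]; exact h3)).symm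

end

attribute [local instance] algB

theorem ni : S_BSC → S_DED → S_NI := by
  intro hBSC hDED p r _ _ L _ _ ζ hζ hp D hD I hI
  obtain ⟨hdd, hfin, -, -⟩ := hDED p r L D hD
  obtain ⟨-, hbas, -, -, -⟩ := hBSC p r L D
  obtain ⟨bas, hb⟩ := basis_exists (p := p) (r := r) (D := D) hbas
  have htow : IsScalarTower L L[X] (BQ p r D) := tower
  have hB : Module.Free L[X] (BQ p r D) := Module.Free.of_basis bas
  have hF : Module.Finite L[X] (BQ p r D) := Module.Finite.of_basis bas
  have hT : Module.IsTorsionFree L[X] (BQ p r D) := inferInstance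
  obtain ⟨g, hg, hgI, hgt⟩ := rel_all (L := L) (S := BQ p r D) hfin I hI
  have hfI := hfin I hI
  -- the degree
  have hdeg : g.natDegree = Module.finrank L (BQ p r D ⧸ I) := by
    have h1 : g = (LinearMap.mul L (BQ p r D ⧸ I) (Ideal.Quotient.mk I (uu p r D))).charpoly := by
      apply Polynomial.funext
      intro t
      rw [hgt, eval_cp, Algebra.norm_apply]
      congr 1
      apply LinearMap.ext
      intro x
      rw [alg_eq, map_sub, map_sub, Algebra.coe_lmul_eq_mul, LinearMap.mul_apply', sub_mul,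
        LinearMap.sub_apply, LinearMap.smul_apply, Module.End.one_apply, LinearMap.mul_apply',
        aeval_C, aeval_X]
      congr 1
      exact (Algebra.smul_def t x).symm
    rw [h1, LinearMap.charpoly_natDegree]
  have hneg : ∀ z : BQ p r D ⧸ I, Algebra.norm L (-z) = (-1) ^ g.natDegree * Algebra.norm L z := by
    intro z
    have h1 : -z = algebraMap L (BQ p r D ⧸ I) (-1) * z := by
      rw [map_neg, map_one]
      exact (neg_one_mul z).symm
    rw [h1, map_mul, Algebra.norm_algebraMap, hdeg]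
  have hsq : ((-1 : L) ^ g.natDegree) * (-1) ^ g.natDegree = 1 := by
    rw [← mul_pow]
    simp
  refine ⟨g, hg, ?_, ?_, ?_⟩
  · rw [prod_eq hζ hp bas hb I hI, hgI, Ideal.map_span, Set.image_singleton, alg_eq]
  · have h1 : Ideal.Quotient.mk I (algebraMap L[X] (BQ p r D) (C 0 - X)) =
        -Ideal.Quotient.mk I (uu p r D) := by
      rw [alg_eq, C_0, zero_sub, map_neg, map_neg, aeval_X]
    rw [hgt, h1, hneg, ← mul_assoc, hsq, one_mul]
    rfl
  · have h1 : Ideal.Quotient.mk I (algebraMap L[X] (BQ p r D) (C D - X)) =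
        Ideal.Quotient.mk I (ww p r D) := by
      rw [alg_eq, map_sub, aeval_C, aeval_X, ← uu_add_ww]
      congr 1
      ring
    rw [hgt, h1]
    rfl

end Pool.Agent.Q214.CF.NI
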